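import Pool.Agent.Helper91.FS.Goals

/-!
# Packet FS-NST (project of helper91, MP_0130f7_co): sets with large stabiliser

Adapted from `Pool/Agent/Helper94/NF/NS.lean`.
-/

set_option autoImplicit false

namespace Pool.Agent.Helper9.FS

open Finset
open Pool.Agent.Helper47.SR (Grp mv lev wt Ew W IsInv up dn StarAt HalfStarAt)
open Pool.Agent.Helper49.NF
open Pool.Agent.Helper91.FS

variable {n : ℕ}

lemma mem_els (G : Grp n) (γ : Equiv.Perm (Fin n)) : γ ∈ els G ↔ γ ∈ G := by
  classical
  unfold els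
  rw [mem_filter]
  exact ⟨fun h => h.2, fun h => ⟨mem_univ _, h⟩⟩

lemma els_mono {H G : Grp n} (h : H ≤ G) : els H ⊆ els G := by
  intro γ hγ
  rw [mem_els] at hγ ⊢
  exact h hγ

lemma pst_mono {H G : Grp n} (h : H ≤ G) (T : Finset (Fin n)) : pst H T ≤ pst G T := by
  unfold pst
  exact card_le_card (filter_subset_filter _ (els_mono h))

lemma mv_mul (γ δ : Equiv.Perm (Fin n)) (A : Finset (Fin n)) : mv (γ * δ) A = mv γ (mv δ A) := by
  ext x
  simp only [mv, mem_map]
  constructor
  · rintro ⟨a, ha, rfl⟩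
    exact ⟨δ a, ⟨a, ha, rfl⟩, rfl⟩
  · rintro ⟨b, ⟨a, ha, rfl⟩, rfl⟩
    exact ⟨a, ha, rfl⟩

lemma mv_one (A : Finset (Fin n)) : mv (1 : Equiv.Perm (Fin n)) A = A := by
  ext x
  simp only [mv, mem_map]
  constructor
  · rintro ⟨a, ha, rfl⟩
    exact ha
  · intro h
    exact ⟨x, h, rfl⟩

/-- the elements of `G` fixing the set `A` -/
lemma stab_card (G : Grp n) (A : Finset (Fin n)) :
    1 + wt G A ≤ #((els G).filter (fun γ => mv γ A = A)) := by
  classical
  unfold wt
  have h1 : insert (1 : Equiv.Perm (Fin n))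
      ((univ : Finset (Equiv.Perm (Fin n))).filter (fun γ => γ ∈ G ∧ γ ≠ 1 ∧ mv γ A = A)) ⊆
      (els G).filter (fun γ => mv γ A = A) := by
    intro γ hγ
    rw [mem_insert] at hγ
    rw [mem_filter, mem_els]
    rcases hγ with rfl | hγ
    · exact ⟨one_mem G, mv_one A⟩
    · rw [mem_filter] at hγ
      exact ⟨hγ.2.1, hγ.2.2.2⟩
  have h2 := card_le_card h1
  rw [card_insert_of_notMem (by
    rw [mem_filter]
    rintro ⟨_, _, h3, _⟩
    exact h3 rfl)] at h2
  have e : (#((univ : Finset (Equiv.Perm (Fin n))).filter (fun γ => γ ∈ G ∧ γ ≠ 1 ∧ mv γ A = A))) =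
      #((univ : Finset (Equiv.Perm (Fin n))).filter (fun γ => γ ∈ G ∧ γ ≠ 1 ∧ mv γ A = A)) := rfl
  omega

/-- the set stabiliser -/
lemma closure_inv (t : Set (Equiv.Perm (Fin n))) (A : Finset (Fin n)) (h : ∀ γ ∈ t, mv γ A = A) :
    ∀ γ ∈ Subgroup.closure t, mv γ A = A := by
  intro γ hγ
  induction hγ using Subgroup.closure_induction with
  | mem x hx => exact h x hx
  | one => exact mv_one A
  | mul x y _ _ hx hy => rw [mv_mul, hy, hx]
  | inv x _ hx =>
    have h1 : mv x⁻¹ (mv x A) = A := by
      rw [← mv_mul, inv_mul_cancel, mv_one]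
    rw [hx] at h1
    exact h1

lemma main (t n L f : ℕ) (G : Grp n) (hG : Eg t n L f G) (h1 : Goal_STBB) (j s M : ℕ) (hj : t ≤ j)
    (hjn : j ≤ n) (hM : ∀ H : Grp n, H ≤ G → s ≤ Nat.card H → inv H j ≤ M) :
    Nn G j s ≤ (L * n ^ t) ^ (s + 1) * M := by
  classical
  obtain ⟨_, g1, g3⟩ := h1 t n L f G hG
  set 𝒜 := (lev n j).filter (fun A => s ≤ 1 + wt G A) with h𝒜
  have hN : Nn G j s ≤ #𝒜 * (L * n ^ t) := by
    unfold Nn
    rw [← smul_eq_mul]
    apply sum_le_card_nsmul
    intro A hA
    rw [mem_filter, mem_powersetCard] at hA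
    have hc : #A = j := hA.1.2
    calc 1 + wt G A ≤ L * #A ^ t := g3 A (by rw [hc]; exact hj)
      _ ≤ L * n ^ t := by rw [hc]; exact Nat.mul_le_mul_left L (Nat.pow_le_pow_left hjn t)
  have hA : #𝒜 ≤ (L * n ^ t) ^ s * M := by
    set 𝒯 := (Fintype.piFinset (fun _ : Fin s => els G)).filter
      (fun τ => s ≤ Nat.card (Subgroup.closure (Set.range τ))) with h𝒯
    have hsub : 𝒜 ⊆ 𝒯.biUnion (fun τ => (lev n j).filter
        (fun A => ∀ γ ∈ Subgroup.closure (Set.range τ), mv γ A = A)) := by
      intro A hA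
      rw [h𝒜, mem_filter] at hA
      have hs : s ≤ #((els G).filter (fun γ => mv γ A = A)) := le_trans hA.2 (stab_card G A)
      obtain ⟨t₀, ht, htc⟩ := exists_subset_card_eq hs
      set e := (Finset.equivFinOfCardEq htc).symm with he
      set τ : Fin s → Equiv.Perm (Fin n) := fun i => (e i : Equiv.Perm (Fin n)) with hτ
      have hrange : Set.range τ = (t₀ : Set (Equiv.Perm (Fin n))) := by
        ext γ
        constructor
        · rintro ⟨i, rfl⟩
          exact (e i).2
        · intro hγ
          exact ⟨e.symm ⟨γ, hγ⟩, by rw [hτ]; simp⟩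
      rw [mem_biUnion]
      refine ⟨τ, ?_, ?_⟩
      · rw [h𝒯, mem_filter, Fintype.mem_piFinset]
        constructor
        · intro i
          exact (mem_filter.mp (ht (e i).2)).1
        · rw [hrange]
          have h5 : Nat.card (t₀ : Set (Equiv.Perm (Fin n))) ≤
              Nat.card (Subgroup.closure (t₀ : Set (Equiv.Perm (Fin n)))) :=
            Nat.card_le_card_of_injective
              (fun x => (⟨x.1, Subgroup.subset_closure x.2⟩ :
                Subgroup.closure (t₀ : Set (Equiv.Perm (Fin n)))))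
              (fun x y hxy => Subtype.ext (congrArg (fun z => (z.1 : Equiv.Perm (Fin n))) hxy))
          have h6 : Nat.card (t₀ : Set (Equiv.Perm (Fin n))) = s := by
            rw [← htc]
            simp
          omega
      · rw [mem_filter]
        refine ⟨hA.1, ?_⟩
        apply closure_inv
        intro γ hγ
        rw [hrange] at hγ
        exact (mem_filter.mp (ht hγ)).2
    calc #𝒜 ≤ #(𝒯.biUnion (fun τ => (lev n j).filter
        (fun A => ∀ γ ∈ Subgroup.closure (Set.range τ), mv γ A = A))) := card_le_card hsub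
      _ ≤ #𝒯 * M := by
          apply card_biUnion_le_card_mul
          intro τ hτ
          rw [h𝒯, mem_filter, Fintype.mem_piFinset] at hτ
          have h7 : Subgroup.closure (Set.range τ) ≤ G := by
            rw [Subgroup.closure_le]
            rintro γ ⟨i, rfl⟩
            exact (mem_els G _).mp (hτ.1 i)
          have h8 := hM (Subgroup.closure (Set.range τ)) h7 hτ.2
          unfold inv at h8
          refine le_trans (le_of_eq ?_) h8
          apply congrArg
          apply filter_congr_decidable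
      _ ≤ (L * n ^ t) ^ s * M := by
          apply Nat.mul_le_mul_right
          calc #𝒯 ≤ #(Fintype.piFinset (fun _ : Fin s => els G)) := card_filter_le _ _
            _ = (#(els G)) ^ s := by
              rw [Fintype.card_piFinset]
              simp
            _ ≤ (L * n ^ t) ^ s := by
              apply Nat.pow_le_pow_left
              exact g1
  calc Nn G j s ≤ #𝒜 * (L * n ^ t) := hN
    _ ≤ ((L * n ^ t) ^ s * M) * (L * n ^ t) := Nat.mul_le_mul_right _ hA
    _ = (L * n ^ t) ^ (s + 1) * M := by ring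

theorem goal_NST (h1 : Goal_STBB) (h2 : Goal_ORBT) (h3 : Goal_ORBC) : Goal_NST := by
  intro t n L f G hG j s hj hjn hs
  constructor
  · intro b hb hbs
    apply main t n L f G hG h1 j s _ hj hjn
    intro H hH hHs
    exact h2 t n L s b j H hG.t1 (fun T hT => le_trans (pst_mono hH T) (hG.st T hT)) hG.L1 hb hbs hHs
  · intro h2j
    apply main t n L f G hG h1 j s _ hj hjn
    intro H hH hHs
    exact h3 n f s j H (fun γ hγ hγ1 => hG.fix γ (hH hγ) hγ1) hs hHs h2j

end Pool.Agent.Helper9.FS
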